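import Pool.Agent.Helper68.QC.St5

/-!
# Project QD, PART M: module RMV (the circle is removable)
-/

open MeasureTheory Set Filter Topology Complex
open scoped ContDiff ComplexConjugate ENNReal

namespace Pool.Agent.Helper52.QCM

open Pool.Agent.Helper68.QC

/-- the bump function on the line -/
noncomputable def hb : ContDiffBump (0 : ℝ) where
  rIn := 1 / 2
  rOut := 1
  rIn_pos := by norm_num
  rIn_lt_rOut := by norm_num

/-- a bump function around the unit circle -/
noncomputable def bet (c : ℝ) (z : ℂ) : ℂ := ((hb (c * (‖z‖ ^ 2 - 1)) : ℝ) : ℂ)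

/-- the annulus containing the support -/
def EE (c : ℝ) : Set ℂ := {z : ℂ | |c * (‖z‖ ^ 2 - 1)| ≤ 1}

lemma bet_smooth (c : ℝ) : ContDiff ℝ ∞ (bet c) := by
  have h1 : ContDiff ℝ ∞ fun z : ℂ => c * (‖z‖ ^ 2 - 1) :=
    contDiff_const.mul ((contDiff_norm_sq ℝ).sub contDiff_const)
  exact Complex.ofRealCLM.contDiff.comp (hb.contDiff.comp h1)

lemma bet_le (c : ℝ) (z : ℂ) : ‖bet c z‖ ≤ 1 := by
  unfold bet
  rw [Complex.norm_real, Real.norm_eq_abs, abs_of_nonneg hb.nonneg]
  exact hb.le_one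

lemma one_sub_bet_le (c : ℝ) (z : ℂ) : ‖1 - bet c z‖ ≤ 1 := by
  unfold bet
  rw [← Complex.ofReal_one, ← Complex.ofReal_sub, Complex.norm_real, Real.norm_eq_abs,
    abs_of_nonneg (sub_nonneg.2 hb.le_one)]
  have := hb.nonneg (x := c * (‖z‖ ^ 2 - 1))
  linarith

lemma bet_zero {c : ℝ} {z : ℂ} (h : 1 ≤ |c * (‖z‖ ^ 2 - 1)|) : bet c z = 0 := by
  unfold bet
  rw [hb.zero_of_le_dist (by rw [Real.dist_eq, sub_zero]; exact h)]
  simp

lemma bet_one {c : ℝ} {z : ℂ} (h : |c * (‖z‖ ^ 2 - 1)| ≤ 1 / 2) : bet c z = 1 := by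
  unfold bet
  rw [hb.one_of_mem_closedBall (by rw [Metric.mem_closedBall, Real.dist_eq, sub_zero]; exact h)]
  simp

lemma isClosed_EE (c : ℝ) : IsClosed (EE c) := by
  unfold EE
  exact isClosed_le (by fun_prop) continuous_const

lemma tsupport_bet (c : ℝ) : tsupport (bet c) ⊆ EE c := by
  refine closure_minimal (fun z hz => ?_) (isClosed_EE c)
  by_contra h
  have h' : 1 < |c * (‖z‖ ^ 2 - 1)| := not_le.1 h
  exact hz (bet_zero h'.le)

lemma EE_norm {c : ℝ} (hc : 1 ≤ c) {z : ℂ} (hz : z ∈ EE c) :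
    1 - 1 / c ≤ ‖z‖ ^ 2 ∧ ‖z‖ ^ 2 ≤ 1 + 1 / c := by
  have h := abs_le.1 (show |c * (‖z‖ ^ 2 - 1)| ≤ 1 from hz)
  have hc0 : 0 < c := by linarith
  constructor
  · have h1 : -1 / c ≤ ‖z‖ ^ 2 - 1 := by
      rw [div_le_iff₀ hc0]
      linarith [h.1]
    have h2 : -1 / c = -(1 / c) := by ring
    linarith
  · have h1 : ‖z‖ ^ 2 - 1 ≤ 1 / c := by
      rw [le_div_iff₀ hc0]
      linarith [h.2]
    linarith

lemma EE_norm2 {c : ℝ} (hc : 1 ≤ c) {z : ℂ} (hz : z ∈ EE c) : ‖z‖ ≤ 2 := by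
  have h1 := (EE_norm hc hz).2
  have h2 : 1 / c ≤ 1 := by
    rw [div_le_one (by linarith)]
    exact hc
  nlinarith [norm_nonneg z]

lemma EE_compact {c : ℝ} (hc : 1 ≤ c) : IsCompact (EE c) :=
  (isCompact_closedBall (0 : ℂ) 2).of_isClosed_subset (isClosed_EE c) fun z hz => by
    rw [mem_closedBall_zero_iff]
    exact EE_norm2 hc hz

lemma bet_cpt {c : ℝ} (hc : 1 ≤ c) : HasCompactSupport (bet c) :=
  (EE_compact hc).of_isClosed_subset (isClosed_tsupport _) (tsupport_bet c)

lemma bet_tst {c : ℝ} (hc : 1 ≤ c) : Tst univ (bet c) := ⟨bet_smooth c, bet_cpt hc, subset_univ _⟩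

lemma vol_EE {c : ℝ} (hc : 1 ≤ c) : volume.real (EE c) ≤ 2 * Real.pi / c := by
  have hc0 : 0 < c := by linarith
  have hc1 : 1 / c ≤ 1 := by
    rw [div_le_one hc0]
    exact hc
  have hcp : 0 < 1 / c := by positivity
  have hreal : ∀ r : ℝ, 0 ≤ r → (volume : Measure ℂ).real (Metric.closedBall 0 r) = r ^ 2 * Real.pi ∧
      (volume : Measure ℂ).real (Metric.ball 0 r) = r ^ 2 * Real.pi := by
    intro r hr
    unfold Measure.real
    rw [Complex.volume_closedBall, Complex.volume_ball]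
    simp [ENNReal.toReal_mul, ENNReal.toReal_pow, ENNReal.toReal_ofReal hr]
  have hsub : EE c ⊆ Metric.closedBall 0 (Real.sqrt (1 + 1 / c)) \
      Metric.ball 0 (Real.sqrt (1 - 1 / c)) := by
    intro z hz
    obtain ⟨h1, h2⟩ := EE_norm hc hz
    refine ⟨?_, ?_⟩
    · rw [mem_closedBall_zero_iff]
      exact Real.le_sqrt_of_sq_le h2
    · rw [mem_ball_zero_iff, not_lt]
      exact Real.sqrt_le_iff.2 ⟨norm_nonneg z, h1⟩
  have hss : Metric.ball (0 : ℂ) (Real.sqrt (1 - 1 / c)) ⊆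
      Metric.closedBall 0 (Real.sqrt (1 + 1 / c)) :=
    (Metric.ball_subset_closedBall).trans
      (Metric.closedBall_subset_closedBall (Real.sqrt_le_sqrt (by linarith)))
  calc volume.real (EE c) ≤ volume.real (Metric.closedBall (0 : ℂ) (Real.sqrt (1 + 1 / c)) \
      Metric.ball 0 (Real.sqrt (1 - 1 / c))) := by
        refine measureReal_mono hsub ?_
        exact ne_top_of_le_ne_top (measure_closedBall_lt_top).ne (measure_mono sdiff_subset)
    _ = (1 + 1 / c) * Real.pi - (1 - 1 / c) * Real.pi := by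
        rw [measureReal_sdiff hss Metric.isOpen_ball.measurableSet measure_closedBall_lt_top.ne,
          (hreal _ (Real.sqrt_nonneg _)).1, (hreal _ (Real.sqrt_nonneg _)).2,
          Real.sq_sqrt (by linarith), Real.sq_sqrt (by linarith)]
    _ = 2 * Real.pi / c := by ring

/-- bound of the derivative -/
lemma bet_fderiv : ∃ M : ℝ, 0 ≤ M ∧ ∀ c : ℝ, 1 ≤ c → ∀ z : ℂ,
    ‖fderiv ℝ (bet c) z‖ ≤ (EE c).indicator (fun _ => 4 * M * c) z := by
  have hd : ContDiff ℝ 1 (hb : ℝ → ℝ) := hb.contDiff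
  have hcd : Continuous (deriv (hb : ℝ → ℝ)) := hd.continuous_deriv le_rfl
  obtain ⟨M, hM⟩ := hcd.bounded_above_of_compact_support hb.hasCompactSupport.deriv
  refine ⟨M, (norm_nonneg _).trans (hM 0), fun c hc z => ?_⟩
  by_cases hz : z ∈ EE c
  · rw [indicator_of_mem hz]
    have h1 : HasFDerivAt (fun z : ℂ => c * (‖z‖ ^ 2 - 1)) (c • (2 • (innerSL ℝ z))) z :=
      ((hasStrictFDerivAt_norm_sq z).hasFDerivAt.sub_const 1).const_mul c
    have h2 : HasDerivAt (hb : ℝ → ℝ) (deriv (hb : ℝ → ℝ) (c * (‖z‖ ^ 2 - 1))) (c * (‖z‖ ^ 2 - 1)) :=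
      (hd.differentiable (by simp) _).hasDerivAt
    have h3 := Complex.ofRealCLM.hasFDerivAt.comp z (h2.comp_hasFDerivAt z h1)
    have h4 : fderiv ℝ (bet c) z = _ := HasFDerivAt.fderiv h3
    rw [h4]
    refine ContinuousLinearMap.opNorm_le_bound _ ?_ fun v => ?_
    · have : 0 ≤ M := (norm_nonneg _).trans (hM 0)
      positivity
    · have h5 : ‖inner ℝ z v‖ ≤ ‖z‖ * ‖v‖ := norm_inner_le_norm z v
      have h6 := EE_norm2 hc hz
      have h7 := hM (c * (‖z‖ ^ 2 - 1))
      have hM0 : 0 ≤ M := (norm_nonneg _).trans (hM 0)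
      have h8 : ‖inner ℝ z v‖ ≤ 2 * ‖v‖ := h5.trans (by gcongr)
      simp only [ContinuousLinearMap.comp_apply, smul_apply, innerSL_apply_apply, smul_eq_mul,
        Complex.ofRealCLM_apply, Complex.norm_real, norm_mul]
      rw [nsmul_eq_mul, norm_mul]
      have h9 : ‖((2 : ℕ) : ℝ)‖ = 2 := by simp
      have h10 : ‖c‖ = c := by rw [Real.norm_eq_abs, abs_of_nonneg (by linarith)]
      rw [h9, h10]
      calc ‖deriv (hb : ℝ → ℝ) (c * (‖z‖ ^ 2 - 1))‖ * (c * (2 * ‖inner ℝ z v‖))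
          ≤ M * (c * (2 * (2 * ‖v‖))) := by gcongr
        _ = 4 * M * c * ‖v‖ := by ring
  · rw [indicator_of_notMem hz]
    have h1 : z ∉ tsupport (fderiv ℝ (bet c)) := fun h2 =>
      hz (tsupport_bet c (tsupport_fderiv_subset ℝ h2))
    rw [image_eq_zero_of_notMem_tsupport h1, norm_zero]

lemma bet_tendsto {z : ℂ} (hz : ‖z‖ ≠ 1) :
    Tendsto (fun n : ℕ => bet ((n : ℝ) + 1) z) atTop (𝓝 0) := by
  have h0 : 0 < |‖z‖ ^ 2 - 1| := by
    rw [abs_pos]
    intro h
    apply hz
    have h1 : ‖z‖ ^ 2 = 1 := by linarith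
    exact (pow_eq_one_iff_of_nonneg (norm_nonneg z) two_ne_zero).1 h1
  obtain ⟨N, hN⟩ := exists_nat_gt (1 / |‖z‖ ^ 2 - 1|)
  refine tendsto_const_nhds.congr' ?_
  filter_upwards [eventually_ge_atTop N] with n hn
  symm
  apply bet_zero
  rw [abs_mul]
  rw [div_lt_iff₀ h0] at hN
  have h1 : (N : ℝ) ≤ |(n : ℝ) + 1| := by
    rw [abs_of_nonneg (by positivity)]
    have : (N : ℝ) ≤ n := by exact_mod_cast hn
    linarith
  calc (1 : ℝ) ≤ N * |‖z‖ ^ 2 - 1| := hN.le
    _ ≤ |(n : ℝ) + 1| * |‖z‖ ^ 2 - 1| := by gcongr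

lemma ae_off : ∀ᵐ z : ℂ, ‖z‖ ≠ 1 := by
  have h : volume (Metric.sphere (0 : ℂ) 1) = 0 := Measure.addHaar_sphere _ _ _
  rw [ae_iff]
  convert h using 2
  ext z
  simp

/-- the flux through the circle tends to zero -/
lemma flux (D : (ℂ → ℂ) → ℂ → ℂ) (hle : ∀ f z, ‖D f z‖ ≤ ‖fderiv ℝ f z‖)
    (hibp : ∀ f φ, ContDiff ℝ ∞ f → Tst univ φ → ∫ z, f z * D φ z = - ∫ z, D f z * φ z)
    (hcon : ∀ f, ContDiff ℝ ∞ f → Continuous (D f)) (g : ℂ → ℂ) (hg : Continuous g)
    (hgc : HasCompactSupport g) :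
    Tendsto (fun n : ℕ => ∫ z, g z * D (bet ((n : ℝ) + 1)) z) atTop (𝓝 0) := by
  obtain ⟨M, hM0, hM⟩ := bet_fderiv
  have hDs : ∀ f : ℂ → ℂ, HasCompactSupport f → HasCompactSupport (D f) := fun f hf => by
    refine HasCompactSupport.intro hf fun x hx => ?_
    have h1 : x ∉ tsupport (fderiv ℝ f) := fun h2 => hx (tsupport_fderiv_subset ℝ h2)
    have h2 := hle f x
    rw [image_eq_zero_of_notMem_tsupport h1, norm_zero] at h2
    exact norm_le_zero_iff.1 h2
  have hc1 : ∀ n : ℕ, (1 : ℝ) ≤ (n : ℝ) + 1 := fun n => by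
    have : (0 : ℝ) ≤ n := by positivity
    linarith
  set C : ℝ := 8 * Real.pi * M + 1 with hC
  have hC0 : 0 < C := by
    have := Real.pi_pos
    positivity
  rw [Metric.tendsto_atTop]
  intro ε hε
  obtain ⟨ψ, hψ, hψg, hψs⟩ := hg.exists_contDiff_approx ⊤ (ε := fun _ => ε / (2 * C))
    continuous_const (fun _ => by positivity)
  have hψc : HasCompactSupport ψ := hgc.mono hψs
  have hlim : Tendsto (fun n : ℕ => ∫ z, ψ z * D (bet ((n : ℝ) + 1)) z) atTop (𝓝 0) := by
    have h1 : Tendsto (fun n : ℕ => ∫ z, D ψ z * bet ((n : ℝ) + 1) z) atTop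
        (𝓝 (∫ z, D ψ z * 0)) := by
      refine tendsto_integral_of_dominated_convergence (fun z => ‖D ψ z‖) (fun n => ?_) ?_
        (fun n => ae_of_all _ fun z => ?_) ?_
      · exact ((hcon ψ hψ).mul (bet_smooth _).continuous).aestronglyMeasurable
      · exact ((hcon ψ hψ).integrable_of_hasCompactSupport (hDs ψ hψc)).norm
      · rw [norm_mul]
        exact mul_le_of_le_one_right (norm_nonneg _) (bet_le _ _)
      · filter_upwards [ae_off] with z hz
        exact (bet_tendsto hz).const_mul (D ψ z)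
    have h2 := h1.neg
    simp only [mul_zero, integral_zero, neg_zero] at h2
    refine h2.congr fun n => ?_
    exact (hibp ψ _ hψ (bet_tst (hc1 n))).symm
  obtain ⟨N, hN⟩ := (Metric.tendsto_atTop.1 hlim) (ε / 2) (by positivity)
  refine ⟨N, fun n hn => ?_⟩
  have hN' := hN n hn
  rw [dist_zero_right] at hN' ⊢
  set c : ℝ := (n : ℝ) + 1 with hc
  have hDc : Continuous (D (bet c)) := hcon _ (bet_smooth c)
  have hDk : HasCompactSupport (D (bet c)) := hDs _ (bet_cpt (hc1 n))
  have i1 : Integrable fun z => g z * D (bet c) z :=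
    (hg.mul hDc).integrable_of_hasCompactSupport hDk.mul_left
  have i2 : Integrable fun z => ψ z * D (bet c) z :=
    (hψ.continuous.mul hDc).integrable_of_hasCompactSupport hDk.mul_left
  have h3 : ∫ z, g z * D (bet c) z =
      (∫ z, ψ z * D (bet c) z) + ∫ z, (g z - ψ z) * D (bet c) z := by
    rw [← integral_add i2]
    · congr 1
      ext z
      ring
    · refine (i1.sub i2).congr (ae_of_all _ fun z => ?_)
      simp only [Pi.sub_apply]
      ring
  have h4 : ‖∫ z, (g z - ψ z) * D (bet c) z‖ ≤ ε / (2 * C) * (8 * Real.pi * M) := by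
    have h5 : ‖∫ z, (g z - ψ z) * D (bet c) z‖ ≤
        ∫ z, (EE c).indicator (fun _ => ε / (2 * C) * (4 * M * c)) z := by
      refine norm_integral_le_of_norm_le ?_ (ae_of_all _ fun z => ?_)
      · rw [integrable_indicator_iff (isClosed_EE c).measurableSet]
        exact integrableOn_const (EE_compact (hc1 n)).measure_lt_top.ne
      · rw [norm_mul]
        have h6 : ‖g z - ψ z‖ ≤ ε / (2 * C) := by
          rw [← dist_eq_norm, dist_comm]
          exact (hψg z).le
        have h7 := (hle (bet c) z).trans (hM c (hc1 n) z)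
        have h8 : (EE c).indicator (fun _ => ε / (2 * C) * (4 * M * c)) z =
            ε / (2 * C) * (EE c).indicator (fun _ => 4 * M * c) z := by
          rw [indicator_const_mul]
        rw [h8]
        exact mul_le_mul h6 h7 (norm_nonneg _) (by positivity)
    refine h5.trans ?_
    rw [integral_indicator_const _ (isClosed_EE c).measurableSet, smul_eq_mul]
    have h9 := vol_EE (hc1 n)
    have hcp : 0 < c := by
      have := hc1 n
      linarith
    have hA : 0 ≤ ε / (2 * C) * (4 * M * c) := by positivity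
    refine (mul_le_mul_of_nonneg_right h9 hA).trans (le_of_eq ?_)
    field_simp
    ring
  have h5 : ε / (2 * C) * (8 * Real.pi * M) < ε / 2 := by
    have h6 : 8 * Real.pi * M < C := by
      rw [hC]
      linarith
    calc ε / (2 * C) * (8 * Real.pi * M) < ε / (2 * C) * C := by
          exact mul_lt_mul_of_pos_left h6 (by positivity)
      _ = ε / 2 := by
          field_simp
  rw [h3]
  refine (norm_add_le _ _).trans_lt ?_
  linarith

/-- one derivative -/
lemma rm_one (D : (ℂ → ℂ) → ℂ → ℂ)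
    (hmul : ∀ f g z, DifferentiableAt ℝ f z → DifferentiableAt ℝ g z →
      D (fun x => f x * g x) z = D f z * g z + f z * D g z)
    (hone : ∀ f z, DifferentiableAt ℝ f z → D (fun x => 1 - f x) z = - D f z)
    (hle : ∀ f z, ‖D f z‖ ≤ ‖fderiv ℝ f z‖)
    (hibp : ∀ f φ, ContDiff ℝ ∞ f → Tst univ φ → ∫ z, f z * D φ z = - ∫ z, D f z * φ z)
    (hcon : ∀ f, ContDiff ℝ ∞ f → Continuous (D f)) (f a : ℂ → ℂ) (hf : Continuous f)
    (ha : L2 univ a) (hw : ∀ φ, Tst offS φ → ∫ z, f z * D φ z = - ∫ z, a z * φ z) :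
    ∀ φ, Tst univ φ → ∫ z, f z * D φ z = - ∫ z, a z * φ z := by
  intro φ hφ
  have hDs : ∀ f : ℂ → ℂ, HasCompactSupport f → HasCompactSupport (D f) := fun f hf => by
    refine HasCompactSupport.intro hf fun x hx => ?_
    have h1 : x ∉ tsupport (fderiv ℝ f) := fun h2 => hx (tsupport_fderiv_subset ℝ h2)
    have h2 := hle f x
    rw [image_eq_zero_of_notMem_tsupport h1, norm_zero] at h2
    exact norm_le_zero_iff.1 h2
  have hc1 : ∀ n : ℕ, (1 : ℝ) ≤ (n : ℝ) + 1 := fun n => by
    have : (0 : ℝ) ≤ n := by positivity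
    linarith
  have hcon1 : ∀ n : ℕ, ContDiff ℝ ∞ (fun z => 1 - bet ((n : ℝ) + 1) z) := fun n =>
    contDiff_const.sub (bet_smooth _)
  -- the cut off test functions
  have hT : ∀ n : ℕ, Tst offS (fun z => (1 - bet ((n : ℝ) + 1) z) * φ z) := fun n => by
    have h1 := hφ.mul_left (hcon1 n)
    refine ⟨h1.smooth, h1.cpt, ?_⟩
    have hcl : IsClosed {z : ℂ | 1 / 2 ≤ |((n : ℝ) + 1) * (‖z‖ ^ 2 - 1)|} :=
      isClosed_le continuous_const (by fun_prop)
    refine (closure_minimal (fun z hz => ?_) hcl).trans fun z hz => ?_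
    · by_contra h
      have h' : |((n : ℝ) + 1) * (‖z‖ ^ 2 - 1)| < 1 / 2 := not_le.1 h
      apply hz
      show (1 - bet ((n : ℝ) + 1) z) * φ z = 0
      rw [bet_one h'.le, sub_self, zero_mul]
    · intro h
      have hz' : 1 / 2 ≤ |((n : ℝ) + 1) * (‖z‖ ^ 2 - 1)| := hz
      rw [h] at hz'
      norm_num at hz'
  have iφ : Integrable fun z => f z * D φ z :=
    (hf.mul (hcon φ hφ.smooth)).integrable_of_hasCompactSupport (hDs φ hφ.cpt).mul_left
  have iaφ : Integrable fun z => a z * φ z := by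
    have h1 : MemLp a 2 (volume.restrict (tsupport φ)) := ha _ (subset_univ _) hφ.cpt
    have hfin : IsFiniteMeasure ((volume : Measure ℂ).restrict (tsupport φ)) :=
      ⟨by rw [Measure.restrict_apply_univ]; exact hφ.cpt.isCompact.measure_lt_top⟩
    have h2 : IntegrableOn a (tsupport φ) := h1.integrable (by norm_num)
    obtain ⟨B, hB⟩ := hφ.continuous.bounded_above_of_compact_support hφ.cpt
    have h3 : IntegrableOn (fun z => a z * φ z) (tsupport φ) :=
      Integrable.mul_bdd (c := B) h2 hφ.continuous.aestronglyMeasurable (ae_of_all _ hB)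
    refine (integrableOn_iff_integrable_of_support_subset ?_).1 h3
    intro z hz
    apply subset_tsupport
    intro h
    apply hz
    show a z * φ z = 0
    rw [h, mul_zero]
  have hid : ∀ n : ℕ, ∫ z, (1 - bet ((n : ℝ) + 1) z) * (f z * D φ z) =
      (∫ z, (f z * φ z) * D (bet ((n : ℝ) + 1)) z) -
        ∫ z, (1 - bet ((n : ℝ) + 1) z) * (a z * φ z) := by
    intro n
    set c : ℝ := (n : ℝ) + 1 with hc
    have h1 := hw _ (hT n)
    have hbd : Differentiable ℝ (bet c) := (bet_smooth c).differentiable (by simp)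
    have h2 : ∀ z, D (fun x => (1 - bet c x) * φ x) z =
        - D (bet c) z * φ z + (1 - bet c z) * D φ z := by
      intro z
      rw [hmul (fun x => 1 - bet c x) φ z ((differentiableAt_const _).sub (hbd z))
        (hφ.differentiable z), hone (bet c) z (hbd z)]
    have i1 : Integrable fun z => (1 - bet c z) * (f z * D φ z) := by
      refine Continuous.integrable_of_hasCompactSupport ?_ ?_
      · exact (hcon1 n).continuous.mul (hf.mul (hcon φ hφ.smooth))
      · exact (hDs φ hφ.cpt).mul_left.mul_left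
    have i2 : Integrable fun z => (f z * φ z) * D (bet c) z := by
      refine Continuous.integrable_of_hasCompactSupport ?_ ?_
      · exact (hf.mul hφ.continuous).mul (hcon _ (bet_smooth c))
      · exact (hDs _ (bet_cpt (hc1 n))).mul_left
    have h3 : ∫ z, f z * D (fun x => (1 - bet c x) * φ x) z =
        (∫ z, (1 - bet c z) * (f z * D φ z)) - ∫ z, (f z * φ z) * D (bet c) z := by
      rw [← integral_sub i1 i2]
      congr 1
      ext z
      rw [h2 z]
      ring
    have h4 : ∫ z, a z * ((1 - bet c z) * φ z) = ∫ z, (1 - bet c z) * (a z * φ z) := by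
      congr 1
      ext z
      ring
    rw [h3, h4] at h1
    linear_combination h1
  -- the limits
  have hl : ∀ g : ℂ → ℂ, Integrable g →
      Tendsto (fun n : ℕ => ∫ z, (1 - bet ((n : ℝ) + 1) z) * g z) atTop (𝓝 (∫ z, g z)) := by
    intro g hg
    refine tendsto_integral_of_dominated_convergence (fun z => ‖g z‖) (fun n => ?_) hg.norm
      (fun n => ae_of_all _ fun z => ?_) ?_
    · exact (hcon1 n).continuous.aestronglyMeasurable.mul hg.aestronglyMeasurable
    · rw [norm_mul]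
      exact mul_le_of_le_one_left (norm_nonneg _) (one_sub_bet_le _ _)
    · filter_upwards [ae_off] with z hz
      have h1 := ((bet_tendsto hz).const_sub 1).mul_const (g z)
      simpa using h1
  have hF := flux D hle hibp hcon (fun z => f z * φ z) (hf.mul hφ.continuous) hφ.cpt.mul_left
  have hR := hF.sub (hl _ iaφ)
  have hL := hl _ iφ
  have hLR := hL.congr hid
  have := tendsto_nhds_unique hLR hR
  rw [this, zero_sub]

theorem pRMV (_hMO1 : StMO1) (_hMO2 : StMO2) : StRMV := by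
  intro f a b hf hw ha hb'
  have h1 : ∀ (f : ℂ → ℂ) (z : ℂ), DifferentiableAt ℝ f z →
      dz (fun x => 1 - f x) z = - dz f z ∧ dzb (fun x => 1 - f x) z = - dzb f z := by
    intro f z hf
    have hc : DifferentiableAt ℝ (fun _ : ℂ => (1 : ℂ)) z := differentiableAt_const _
    rw [dz_sub hc hf, dzb_sub hc hf]
    simp
  refine ⟨hf.continuousOn, ha, hb', ?_, ?_⟩
  · exact rm_one dz (fun f g z hf hg => dz_mul hf hg) (fun f z hf => (h1 f z hf).1) norm_dz_le
      (fun f φ hf hφ => ibp_dz hf hφ) (fun f hf => continuous_dz hf) f a hf ha hw.dz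
  · exact rm_one dzb (fun f g z hf hg => dzb_mul hf hg) (fun f z hf => (h1 f z hf).2) norm_dzb_le
      (fun f φ hf hφ => ibp_dzb hf hφ) (fun f hf => continuous_dzb hf) f b hf hb' hw.dzb

end Pool.Agent.Helper52.QCM
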